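import Pool.Agent.L7h71.FP.Seg
import Pool.Agent.L7h71.FP.Ind

set_option autoImplicit false

/-!
Part CRO: double cosets of a closed group with an invariant infinite coinfinite set (over a finite
set) and uncountably many orbits on subsets, and the automorphism group of an equivalence relation.
-/

namespace Pool.Agent.L7h65.DU

open Set Filter Pool.Agent.L7h71.FP

theorem bool_eq {a b : Bool} (h : a = true ↔ b = true) : a = b := by
  cases a <;> cases b <;> simp_all

/-- countable sections -/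
def Sec (G : PG) (A : (ℕ → Bool) → ℕ → Bool) : Prop :=
  ∀ c, {d | ∃ g ∈ G, ∀ n, A d (g n) = A c n}.Countable

theorem Sec.comp {G : PG} {A : (ℕ → Bool) → ℕ → Bool} (hA : Sec G A)
    {h : (ℕ → Bool) → ℕ → Bool} (hh : Function.Injective h) : Sec G (fun b => A (h b)) := by
  intro c
  have h1 := (hA (h c)).preimage_of_injOn (f := h) hh.injOn
  exact h1

/-- a continuous injection of the Cantor space avoiding a countable set -/
theorem avoid {N : Set (ℕ → Bool)} (hN : N.Countable) :
    ∃ h : (ℕ → Bool) → ℕ → Bool, Continuous h ∧ Function.Injective h ∧ ∀ b, h b ∉ N := by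
  obtain ⟨e, he⟩ : ∃ e : ℕ → ℕ → Bool, N ⊆ range e := by
    rcases N.eq_empty_or_nonempty with h0 | h0
    · exact ⟨fun _ _ => true, by rw [h0]; exact empty_subset _⟩
    · obtain ⟨e, he⟩ := hN.exists_eq_range h0
      exact ⟨e, he.subset⟩
  refine ⟨fun b n => if n % 2 = 0 then b (n / 2) else !(e (n / 2) n), ?_, ?_, ?_⟩
  · refine continuous_pi fun n => ?_
    by_cases hn : n % 2 = 0
    · simp only [hn, if_true]
      exact continuous_apply _
    · simp only [hn, if_false]
      exact continuous_const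
  · intro b b' hb
    funext n
    have h1 := congrFun hb (2 * n)
    have h2 : (2 * n) % 2 = 0 := by omega
    have h3 : (2 * n) / 2 = n := by omega
    simp only [h2, h3, if_true] at h1
    exact h1
  · intro b hb
    obtain ⟨k, hk⟩ := he hb
    have h1 := congrFun hk (2 * k + 1)
    have h2 : ¬ (2 * k + 1) % 2 = 0 := by omega
    have h3 : (2 * k + 1) / 2 = k := by omega
    simp only [h2, h3, if_false] at h1
    cases h4 : e k (2 * k + 1)
    · rw [h4] at h1; exact absurd h1 (by decide)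
    · rw [h4] at h1; exact absurd h1 (by decide)

/-- the subset of `V` is finite or cofinite in `V` -/
def FC (V : Set ℕ) (W : Set ℕ) : Prop := W ⊆ V ∧ (W.Finite ∨ (V \ W).Finite)

theorem fc_countable (V : Set ℕ) : {W | FC V W}.Countable := by
  have h0 : {F : Set ℕ | F.Finite ∧ F ⊆ univ}.Countable :=
    countable_ofPred_finite_subset (Set.to_countable _)
  have h1 : {W | FC V W} ⊆ {F : Set ℕ | F.Finite ∧ F ⊆ univ} ∪
      (fun F => V \ F) '' {F : Set ℕ | F.Finite ∧ F ⊆ univ} := by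
    rintro W ⟨hW, h | h⟩
    · exact Or.inl ⟨h, subset_univ _⟩
    · refine Or.inr ⟨V \ W, ⟨h, subset_univ _⟩, ?_⟩
      show V \ (V \ W) = W
      rw [sdiff_sdiff_cancel_left hW]
  exact (h0.union (h0.image _)).mono h1

/-- the set with characteristic function `A` -/
def S (A : ℕ → Bool) : Set ℕ := {n | A n = true}

/-- the bad parameters -/
def Bad (V : Set ℕ) (A : (ℕ → Bool) → ℕ → Bool) : Set (ℕ → Bool) := {c | FC V (V ∩ S (A c))}

theorem bad_iff {V : Set ℕ} {A : (ℕ → Bool) → ℕ → Bool} {c : ℕ → Bool} :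
    c ∉ Bad V A ↔ (V ∩ S (A c)).Infinite ∧ (V \ S (A c)).Infinite := by
  show ¬ FC V (V ∩ S (A c)) ↔ _
  unfold FC
  rw [sdiff_self_inter]
  constructor
  · intro h
    exact ⟨fun h1 => h ⟨inter_subset_left, Or.inl h1⟩, fun h1 => h ⟨inter_subset_left, Or.inr h1⟩⟩
  · rintro ⟨h1, h2⟩ ⟨-, h3 | h3⟩
    · exact h1 h3
    · exact h2 h3

/-- all four sets are infinite -/
def Four (U : Set ℕ) (A : (ℕ → Bool) → ℕ → Bool) : Prop := ∀ c,
  ((U ∩ S (A c)).Infinite ∧ (U \ S (A c)).Infinite) ∧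
  ((Uᶜ ∩ S (A c)).Infinite ∧ (Uᶜ \ S (A c)).Infinite)

theorem subset_infinite {V : Set ℕ} (hV : V.Infinite) :
    ∃ W ⊆ V, W.Infinite ∧ (V \ W).Infinite := by
  have := hV.to_subtype
  let e := Infinite.natEmbedding V
  have hinj : Function.Injective fun n => ((e n : V) : ℕ) :=
    Subtype.val_injective.comp e.injective
  refine ⟨range fun n => ((e (2 * n) : V) : ℕ), ?_, ?_, ?_⟩
  · rintro _ ⟨n, rfl⟩; exact (e (2 * n)).2
  · refine infinite_range_of_injective fun a b hab => ?_
    have := hinj (a₁ := 2 * a) (a₂ := 2 * b) hab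
    omega
  · have h1 : range (fun n => ((e (2 * n + 1) : V) : ℕ)) ⊆
        V \ range fun n => ((e (2 * n) : V) : ℕ) := by
      rintro _ ⟨n, rfl⟩
      refine ⟨(e _).2, ?_⟩
      rintro ⟨k, hk⟩
      have := hinj (a₁ := 2 * k) (a₂ := 2 * n + 1) hk
      omega
    refine (infinite_range_of_injective fun a b hab => ?_).mono h1
    have := hinj (a₁ := 2 * a + 1) (a₂ := 2 * b + 1) hab
    omega

/-- the first case of the reduction: the second parts are bad for uncountably many parameters -/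
theorem case1 {G : PG} {U : Set ℕ} (hV : (Uᶜ).Infinite) (hinv : ∀ g ∈ G, ∀ n, g n ∈ U ↔ n ∈ U)
    {A : (ℕ → Bool) → ℕ → Bool} (hA : Continuous A) (hS : Sec G A)
    (hb : ¬ (Bad Uᶜ A).Countable) :
    ∃ B : (ℕ → Bool) → ℕ → Bool, Continuous B ∧ Sec G B ∧ Four U B := by
  classical
  -- a constant second part
  obtain ⟨W, hW, hWu⟩ : ∃ W, FC Uᶜ W ∧ ¬ {c | Uᶜ ∩ S (A c) = W}.Countable := by
    by_contra hno
    push Not at hno
    apply hb
    have h1 : Bad Uᶜ A ⊆ ⋃ W ∈ {W | FC Uᶜ W}, {c | Uᶜ ∩ S (A c) = W} := by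
      intro c hc
      exact mem_biUnion (x := Uᶜ ∩ S (A c)) hc rfl
    exact ((fc_countable Uᶜ).biUnion fun W hW => hno W hW).mono h1
  have hcl : IsClosed {c | Uᶜ ∩ S (A c) = W} := by
    have e : {c | Uᶜ ∩ S (A c) = W} =
        ⋂ n : ℕ, {c | (n ∈ Uᶜ ∧ A c n = true) ↔ n ∈ W} := by
      ext c
      simp only [mem_ofPred_eq, mem_iInter]
      rw [Set.ext_iff]
      rfl
    rw [e]
    refine isClosed_iInter fun n => ?_
    have h2 : Continuous fun c => A c n := (continuous_apply n).comp hA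
    exact (isClosed_discrete {b : Bool | (n ∈ Uᶜ ∧ b = true) ↔ n ∈ W}).preimage h2
  have : PolishSpace (ℕ → Bool) := polish_cantor
  obtain ⟨h, hr, hc, hi⟩ := hcl.exists_nat_bool_injection_of_not_countable hWu
  have hW1 : ∀ b, Uᶜ ∩ S (A (h b)) = W := fun b => hr ⟨b, rfl⟩
  -- the first parts are good for all but countably many parameters
  have hbU : (Bad U fun b => A (h b)).Countable := by
    have h1 : (Bad U fun b => A (h b)) ⊆ ⋃ W' ∈ {W' | FC U W'}, {b | U ∩ S (A (h b)) = W'} := by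
      intro c hc
      exact mem_biUnion (x := U ∩ S (A (h c))) hc rfl
    refine ((fc_countable U).biUnion fun W' hW' => ?_).mono h1
    rcases {b | U ∩ S (A (h b)) = W'}.eq_empty_or_nonempty with h0 | ⟨b0, hb0⟩
    · rw [h0]; exact countable_empty
    · refine ((hS.comp hi) b0).mono ?_
      intro b hb
      refine ⟨1, G.one_mem, fun n => ?_⟩
      have h2 : U ∩ S (A (h b)) = U ∩ S (A (h b0)) := Eq.trans hb (Eq.symm hb0)
      have h3 : Uᶜ ∩ S (A (h b)) = Uᶜ ∩ S (A (h b0)) := (hW1 b).trans (hW1 b0).symm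
      have h4 : S (A (h b)) = S (A (h b0)) := by
        rw [← inter_union_compl (S (A (h b))) U, ← inter_union_compl (S (A (h b0))) U,
          inter_comm _ U, inter_comm _ Uᶜ, inter_comm _ U, inter_comm _ Uᶜ, h2, h3]
      have h5 : A (h b) n = true ↔ A (h b0) n = true := by
        have := Set.ext_iff.1 h4 n
        exact this
      exact bool_eq h5
  obtain ⟨h', hc', hi', hn'⟩ := avoid hbU
  set A2 : (ℕ → Bool) → ℕ → Bool := fun b => A (h (h' b)) with hA2
  have hA2c : Continuous A2 := hA.comp (hc.comp hc')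
  have hA2s : Sec G A2 := (hS.comp hi).comp hi'
  have hA2W : ∀ b, Uᶜ ∩ S (A2 b) = W := fun b => hW1 (h' b)
  have hA2U : ∀ b, (U ∩ S (A2 b)).Infinite ∧ (U \ S (A2 b)).Infinite := fun b =>
    bad_iff.1 (hn' b)
  obtain ⟨W', hW'U, hW'1, hW'2⟩ := subset_infinite hV
  let B : (ℕ → Bool) → ℕ → Bool := fun c n =>
    if n ∈ U then A2 c n else decide (n ∈ W')
  have hBU : ∀ c n, n ∈ U → B c n = A2 c n := fun c n hn => if_pos hn
  have hBV : ∀ c n, n ∉ U → B c n = decide (n ∈ W') := fun c n hn => if_neg hn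
  refine ⟨B, ?_, ?_, ?_⟩
  · refine continuous_pi fun n => ?_
    by_cases hn : n ∈ U
    · have e : (fun c => B c n) = fun c => A2 c n := funext fun c => hBU c n hn
      rw [e]
      exact (continuous_apply n).comp hA2c
    · have e : (fun c => B c n) = fun c => decide (n ∈ W') := funext fun c => hBV c n hn
      rw [e]
      exact continuous_const
  · intro c
    -- the possibilities for the inverse image of `W`
    have hpos : {d | ∃ g ∈ G, ∀ n, B d (g n) = B c n} ⊆
        ⋃ P ∈ {P | FC Uᶜ P}, {d | ∃ g ∈ G, (∀ n, B d (g n) = B c n) ∧ g ⁻¹' W = P} := by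
      rintro d ⟨g, hg, hd⟩
      refine mem_biUnion (x := g ⁻¹' W) ?_ ⟨g, hg, hd, rfl⟩
      have h1 : g ⁻¹' Uᶜ = Uᶜ := by
        ext n
        show ¬ g n ∈ U ↔ ¬ n ∈ U
        rw [hinv g hg]
      refine ⟨?_, ?_⟩
      · rw [← h1]
        exact preimage_mono hW.1
      · rcases hW.2 with h2 | h2
        · exact Or.inl (h2.preimage g.injective.injOn)
        · refine Or.inr ?_
          have h3 := h2.preimage (f := g) g.injective.injOn
          rw [preimage_sdiff, h1] at h3
          exact h3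
    refine ((fc_countable Uᶜ).biUnion fun P _ => ?_).mono hpos
    rcases {d | ∃ g ∈ G, (∀ n, B d (g n) = B c n) ∧ g ⁻¹' W = P}.eq_empty_or_nonempty with
      h0 | ⟨d0, g0, hg0, hd0, hP0⟩
    · rw [h0]; exact countable_empty
    · refine (hA2s d0).mono ?_
      rintro d ⟨g, hg, hd, hP⟩
      refine ⟨g * g0⁻¹, G.mul_mem hg (G.inv_mem hg0), fun n => ?_⟩
      obtain ⟨x, rfl⟩ := g0.surjective n
      have h1 : (g * g0⁻¹) (g0 x) = g x := by simp
      rw [h1]
      by_cases hx : x ∈ U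
      · have h2 := (hinv g hg x).2 hx
        have h3 := (hinv g0 hg0 x).2 hx
        rw [← hBU d _ h2, ← hBU d0 _ h3, hd, hd0]
      · have h2 : g x ∉ U := fun h => hx ((hinv g hg x).1 h)
        have h3 : g0 x ∉ U := fun h => hx ((hinv g0 hg0 x).1 h)
        have h4 : ∀ (b : ℕ → Bool) (y : ℕ), y ∉ U → (A2 b y = true ↔ y ∈ W) := by
          intro b y hy
          rw [← hA2W b]
          exact ⟨fun h => ⟨hy, h⟩, fun h => h.2⟩
        have h5 : g x ∈ W ↔ g0 x ∈ W := by
          have h6 : g ⁻¹' W = g0 ⁻¹' W := hP.trans hP0.symm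
          exact Set.ext_iff.1 h6 x
        have h7 := (h4 d (g x) h2).trans (h5.trans (h4 d0 (g0 x) h3).symm)
        exact bool_eq h7
  · intro c
    have e1 : U ∩ S (B c) = U ∩ S (A2 c) := by
      ext n
      constructor
      · rintro ⟨h1, h2⟩
        refine ⟨h1, ?_⟩
        show A2 c n = true
        rw [← hBU c n h1]; exact h2
      · rintro ⟨h1, h2⟩
        refine ⟨h1, ?_⟩
        show B c n = true
        rw [hBU c n h1]; exact h2
    have e2 : Uᶜ ∩ S (B c) = W' := by
      ext n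
      constructor
      · rintro ⟨h1, h2⟩
        have h3 : B c n = true := h2
        rw [hBV c n h1, decide_eq_true_eq] at h3
        exact h3
      · intro h1
        refine ⟨hW'U h1, ?_⟩
        show B c n = true
        rw [hBV c n (hW'U h1), decide_eq_true_eq]
        exact h1
    rw [← sdiff_self_inter (s := U), ← sdiff_self_inter (s := Uᶜ), e1, e2, sdiff_self_inter]
    exact ⟨hA2U c, hW'1, hW'2⟩

theorem four_compl {U : Set ℕ} {B : (ℕ → Bool) → ℕ → Bool} (h : Four Uᶜ B) : Four U B := by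
  intro c
  have h1 := h c
  rw [compl_compl] at h1
  exact ⟨h1.2, h1.1⟩

theorem reduce {G : PG} {U : Set ℕ} (hU : U.Infinite) (hV : (Uᶜ).Infinite)
    (hinv : ∀ g ∈ G, ∀ n, g n ∈ U ↔ n ∈ U)
    {A : (ℕ → Bool) → ℕ → Bool} (hA : Continuous A) (hS : Sec G A) :
    ∃ B : (ℕ → Bool) → ℕ → Bool, Continuous B ∧ Sec G B ∧ Four U B := by
  by_cases h1 : (Bad Uᶜ A).Countable
  · by_cases h2 : (Bad U A).Countable
    · obtain ⟨h, hc, hi, hn⟩ := avoid (h1.union h2)
      refine ⟨fun b => A (h b), hA.comp hc, hS.comp hi, fun c => ?_⟩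
      have h3 := hn c
      rw [mem_union, not_or] at h3
      exact ⟨bad_iff.1 h3.2, bad_iff.1 h3.1⟩
    · have hinv' : ∀ g ∈ G, ∀ n, g n ∈ Uᶜ ↔ n ∈ Uᶜ := by
        intro g hg n
        show ¬ g n ∈ U ↔ ¬ n ∈ U
        rw [hinv g hg]
      obtain ⟨B, hB1, hB2, hB3⟩ := case1 (U := Uᶜ) (by rwa [compl_compl]) hinv' hA hS
        (by rwa [compl_compl])
      exact ⟨B, hB1, hB2, four_compl hB3⟩
  · exact case1 hV hinv hA hS h1

/-- the pattern of the second equivalence relation -/
def pat (r m n : ℕ) : Fin 4 :=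
  if n < r then 2
  else if (n - r) / m % 3 = 0 then (if (n - r) % m = 0 then 0 else 1)
  else if (n - r) / m % 3 = 1 then 2 else 3

theorem pat_at {r m : ℕ} (hm : 2 ≤ m) (j i : ℕ) (hi : i < m) : pat r m (r + m * j + i) =
    if j % 3 = 0 then (if i = 0 then 0 else 1) else if j % 3 = 1 then 2 else 3 := by
  unfold pat
  have h1 : ¬ r + m * j + i < r := by omega
  have h2 : r + m * j + i - r = i + m * j := by omega
  have h3 : (i + m * j) / m = j := by
    rw [Nat.add_mul_div_left _ _ (by omega), Nat.div_eq_of_lt hi, zero_add]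
  have h4 : (i + m * j) % m = i := by
    rw [Nat.add_mul_mod_self_left, Nat.mod_eq_of_lt hi]
  rw [if_neg h1, h2, h3, h4]

theorem pat_inf {r m : ℕ} (hm : 2 ≤ m) : Seg.Inf (pat r m) := by
  have key : ∀ (i : Fin 4) (a s : ℕ), s < m → a < 3 →
      (∀ t, pat r m (r + m * (3 * t + a) + s) = i) → {x | pat r m x = i}.Infinite := by
    intro i a s hs ha h
    have h1 : range (fun t => r + m * (3 * t + a) + s) ⊆ {x | pat r m x = i} := by
      rintro _ ⟨t, rfl⟩
      exact h t
    refine (infinite_range_of_injective fun t t' htt => ?_).mono h1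
    have h2 : r + m * (3 * t + a) + s = r + m * (3 * t' + a) + s := htt
    have h3 : m * (3 * t + a) = m * (3 * t' + a) := by omega
    have h4 := Nat.eq_of_mul_eq_mul_left (by omega) h3
    omega
  have e0 : ∀ t, (3 * t + 0) % 3 = 0 := fun t => by omega
  have e1 : ∀ t, (3 * t + 1) % 3 = 1 := fun t => by omega
  have e2 : ∀ t, (3 * t + 2) % 3 = 2 := fun t => by omega
  intro i
  match i with
  | 0 =>
    refine key 0 0 0 (by omega) (by omega) fun t => ?_
    rw [pat_at hm _ _ (by omega), if_pos (e0 t), if_pos rfl]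
  | 1 =>
    refine key 1 0 1 (by omega) (by omega) fun t => ?_
    rw [pat_at hm _ _ (by omega), if_pos (e0 t), if_neg (by omega)]
  | 2 =>
    refine key 2 1 0 (by omega) (by omega) fun t => ?_
    rw [pat_at hm _ _ (by omega), if_neg (by rw [e1]; omega), if_pos (e1 t)]
  | 3 =>
    refine key 3 2 0 (by omega) (by omega) fun t => ?_
    rw [pat_at hm _ _ (by omega), if_neg (by rw [e2]; omega), if_neg (by rw [e2]; omega)]

/-- the crossing points -/
def Cross (U : Set ℕ) (r m : ℕ) (τ : Equiv.Perm ℕ) : Set ℕ :=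
  {z | ∃ x y, τ x = z ∧ cls r m y = cls r m x ∧ (τ x ∈ U ↔ τ y ∉ U)}

theorem cross_mul {U : Set ℕ} {r m : ℕ} {g k τ : Equiv.Perm ℕ} (hg : ∀ n, g n ∈ U ↔ n ∈ U)
    (hk : k ∈ NE r m) : Cross U r m (g * τ * k) = g '' Cross U r m τ := by
  ext z
  constructor
  · rintro ⟨x, y, rfl, h1, h2⟩
    refine ⟨τ (k x), ⟨k x, k y, rfl, (hk y x).2 h1, ?_⟩, rfl⟩
    rw [← hg, ← hg (τ (k y))]
    exact h2
  · rintro ⟨_, ⟨x, y, rfl, h1, h2⟩, rfl⟩
    refine ⟨k⁻¹ x, k⁻¹ y, by simp, ?_, ?_⟩
    · rw [← hk]; simpa using h1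
    · have e1 : (g * τ * k) (k⁻¹ x) = g (τ x) := by simp
      have e2 : (g * τ * k) (k⁻¹ y) = g (τ y) := by simp
      rw [e1, e2, hg, hg]
      exact h2

/-- the pattern of `U` and of the set -/
noncomputable def quo (U : Set ℕ) (A : (ℕ → Bool) → ℕ → Bool) (c : ℕ → Bool) (n : ℕ) : Fin 4 :=
  open Classical in if A c n then (if n ∈ U then 0 else 1) else (if n ∈ U then 2 else 3)

theorem quo_cont {U : Set ℕ} {A : (ℕ → Bool) → ℕ → Bool} (hA : Continuous A) :
    Continuous (quo U A) := by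
  classical
  refine continuous_pi fun n => ?_
  have e : (fun c => quo U A c n) = (fun b : Bool =>
      (if b then (if n ∈ U then 0 else 1) else (if n ∈ U then 2 else 3) : Fin 4)) ∘
        fun c => A c n := by
    funext c
    rfl
  rw [e]
  exact continuous_of_discreteTopology.comp ((continuous_apply n).comp hA)

theorem quo_U {U : Set ℕ} {A : (ℕ → Bool) → ℕ → Bool} {c : ℕ → Bool} {n : ℕ} :
    n ∈ U ↔ quo U A c n = 0 ∨ quo U A c n = 2 := by
  classical
  unfold quo
  by_cases h1 : A c n = true <;> by_cases h2 : n ∈ U <;> simp [h1, h2]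

theorem quo_A {U : Set ℕ} {A : (ℕ → Bool) → ℕ → Bool} {c : ℕ → Bool} {n : ℕ} :
    A c n = true ↔ quo U A c n = 0 ∨ quo U A c n = 1 := by
  classical
  unfold quo
  by_cases h1 : A c n = true <;> by_cases h2 : n ∈ U <;> simp [h1, h2]

theorem quo_inf {U : Set ℕ} {A : (ℕ → Bool) → ℕ → Bool} (h4 : Four U A) (c : ℕ → Bool) :
    Seg.Inf (quo U A c) := by
  classical
  obtain ⟨⟨h1, h2⟩, h3, h5⟩ := h4 c
  intro i
  match i with
  | 0 =>
    refine h1.mono ?_
    rintro n ⟨hn, hA⟩
    have hA' : A c n = true := hA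
    show quo U A c n = 0
    unfold quo
    rw [if_pos hA', if_pos hn]
  | 1 =>
    refine h3.mono ?_
    rintro n ⟨hn, hA⟩
    have hA' : A c n = true := hA
    show quo U A c n = 1
    unfold quo
    rw [if_pos hA', if_neg hn]
  | 2 =>
    refine h2.mono ?_
    rintro n ⟨hn, hA⟩
    have hA' : ¬ A c n = true := hA
    show quo U A c n = 2
    unfold quo
    rw [if_neg hA', if_pos hn]
  | 3 =>
    refine h5.mono ?_
    rintro n ⟨hn, hA⟩
    have hA' : ¬ A c n = true := hA
    show quo U A c n = 3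
    unfold quo
    rw [if_neg hA', if_neg hn]

/-- the patterns in a class -/
theorem pat_cls {r m : ℕ} (hm : 2 ≤ m) {x y : ℕ} (h : cls r m y = cls r m x) :
    ((pat r m x = 0 ∨ pat r m x = 1) ∧ (pat r m y = 0 ∨ pat r m y = 1)) ∨
    (pat r m x = 2 ∧ pat r m y = 2) ∨ (pat r m x = 3 ∧ pat r m y = 3) := by
  unfold cls at h
  unfold pat
  by_cases hx : x < r
  · by_cases hy : y < r
    · right; left; rw [if_pos hx, if_pos hy]; exact ⟨rfl, rfl⟩
    · rw [if_pos hx, if_neg hy] at h
      generalize (y - r) / m = u at h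
      omega
  · by_cases hy : y < r
    · rw [if_neg hx, if_pos hy] at h
      generalize (x - r) / m = u at h
      omega
    · rw [if_neg hx, if_neg hy] at h
      have h1 : (y - r) / m = (x - r) / m := Nat.add_left_cancel h
      rw [if_neg hx, if_neg hy, h1]
      by_cases h2 : (x - r) / m % 3 = 0
      · left
        rw [if_pos h2, if_pos h2]
        constructor
        · by_cases h3 : (x - r) % m = 0
          · left; rw [if_pos h3]
          · right; rw [if_neg h3]
        · by_cases h3 : (y - r) % m = 0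
          · left; rw [if_pos h3]
          · right; rw [if_neg h3]
      · rw [if_neg h2, if_neg h2]
        right
        by_cases h3 : (x - r) / m % 3 = 1
        · left; rw [if_pos h3]; exact ⟨rfl, rfl⟩
        · right; rw [if_neg h3]; exact ⟨rfl, rfl⟩

/-- the partner in the class -/
theorem pat_partner {r m : ℕ} (hm : 2 ≤ m) {x : ℕ} (h : pat r m x = 0 ∨ pat r m x = 1) :
    ∃ y, cls r m y = cls r m x ∧ ((pat r m x = 0 ∧ pat r m y = 1) ∨
      (pat r m x = 1 ∧ pat r m y = 0)) := by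
  have hx : ¬ x < r := by
    intro h1
    unfold pat at h
    rw [if_pos h1] at h
    rcases h with h | h <;> exact absurd h (by decide)
  obtain ⟨j, i, hi, rfl⟩ : ∃ j i, i < m ∧ x = r + m * j + i := by
    refine ⟨(x - r) / m, (x - r) % m, Nat.mod_lt _ (by omega), ?_⟩
    have := Nat.div_add_mod (x - r) m
    omega
  have hc : ∀ i', i' < m → cls r m (r + m * j + i') = r + j := by
    intro i' hi'
    unfold cls
    have h2 : r + m * j + i' - r = i' + m * j := by omega
    rw [if_neg (by omega), h2, Nat.add_mul_div_left _ _ (by omega), Nat.div_eq_of_lt hi', zero_add]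
  have hj : j % 3 = 0 := by
    by_contra h3
    rw [pat_at hm j i hi, if_neg h3] at h
    by_cases h4 : j % 3 = 1
    · rw [if_pos h4] at h
      rcases h with h | h <;> exact absurd h (by decide)
    · rw [if_neg h4] at h
      rcases h with h | h <;> exact absurd h (by decide)
  by_cases h0 : i = 0
  · refine ⟨r + m * j + 1, by rw [hc i hi, hc 1 (by omega)], Or.inl ⟨?_, ?_⟩⟩
    · rw [pat_at hm j i hi, if_pos hj, if_pos h0]
    · rw [pat_at hm j 1 (by omega), if_pos hj, if_neg (by omega)]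
  · refine ⟨r + m * j + 0, by rw [hc i hi, hc 0 (by omega)], Or.inr ⟨?_, ?_⟩⟩
    · rw [pat_at hm j i hi, if_pos hj, if_neg h0]
    · rw [pat_at hm j 0 (by omega), if_pos hj, if_pos rfl]

theorem cross_sg {U : Set ℕ} {A : (ℕ → Bool) → ℕ → Bool} {r m : ℕ} (hm : 2 ≤ m)
    (h4 : Four U A) (c : ℕ → Bool) :
    Cross U r m (Seg.sg (pat_inf (r := r) hm) (quo_inf h4 c)) = S (A c) := by
  set τ := Seg.sg (pat_inf (r := r) hm) (quo_inf h4 c) with hτ
  have hsp : ∀ n, quo U A c (τ n) = pat r m n := fun n => Seg.sg_spec _ _ n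
  have hU : ∀ n, τ n ∈ U ↔ pat r m n = 0 ∨ pat r m n = 2 := fun n => by
    rw [quo_U (A := A) (c := c), hsp]
  have hA : ∀ n, A c (τ n) = true ↔ pat r m n = 0 ∨ pat r m n = 1 := fun n => by
    rw [quo_A (U := U), hsp]
  ext z
  constructor
  · rintro ⟨x, y, rfl, h1, h2⟩
    show A c (τ x) = true
    rw [hA]
    rw [hU, hU] at h2
    rcases pat_cls hm h1 with h3 | ⟨h3, h5⟩ | ⟨h3, h5⟩
    · exact h3.1
    · exfalso
      exact (h2.1 (Or.inr h3)) (Or.inr h5)
    · exfalso
      have h6 : ¬ (pat r m x = 0 ∨ pat r m x = 2) := by rw [h3]; decide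
      have h7 : ¬ (pat r m y = 0 ∨ pat r m y = 2) := by rw [h5]; decide
      exact h6 (h2.2 h7)
  · intro hz
    obtain ⟨x, rfl⟩ := τ.surjective z
    have h1 : pat r m x = 0 ∨ pat r m x = 1 := (hA x).1 hz
    obtain ⟨y, hy, h3⟩ := pat_partner hm h1
    refine ⟨x, y, rfl, hy, ?_⟩
    rw [hU, hU]
    rcases h3 with ⟨h5, h6⟩ | ⟨h5, h6⟩ <;> rw [h5, h6] <;> decide

theorem clo_NE (r m : ℕ) : Clo (NE r m) := by
  intro g hg x y
  obtain ⟨h, hh, h1⟩ := hg {x, y}
  rw [← h1 x (by simp), ← h1 y (by simp)]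
  exact hh x y

theorem clo_st {G : PG} (hG : Clo G) (F : Set ℕ) : Clo (st G F) := by
  intro g hg
  refine ⟨hG g fun s => ?_, fun i hi => ?_⟩
  · obtain ⟨h, hh, h1⟩ := hg s
    exact ⟨h, hh.1, h1⟩
  · obtain ⟨h, hh, h1⟩ := hg {i}
    rw [← h1 i (by simp)]
    exact hh.2 i hi

theorem s_cro : S_IND → S_IDX → S_CRO := by
  intro hind hidx G hG hF hMoi r m hm
  obtain ⟨F, hFf, U, hU, hV, hinv⟩ := hMoi
  unfold Few at hF
  rw [not_not] at hF
  obtain ⟨A, hA, hs⟩ := hF
  have hs' : Sec (st G F) A := by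
    intro c
    refine (hs c).mono ?_
    rintro d ⟨g, hg, h1⟩
    exact ⟨g, hg.1, h1⟩
  obtain ⟨B, hB1, hB2, hB3⟩ := reduce hU hV hinv hA hs'
  have h1 : DCp (st G F) (NE r m) := by
    refine hind (st G F) (NE r m) (clo_st hG F) (clo_NE r m)
      (fun c => Seg.sg (pat_inf (r := r) hm) (quo_inf hB3 c))
      (Seg.sg_cfam _ _ (quo_cont hB1)) fun c => ?_
    refine (hB2 c).mono ?_
    rintro d ⟨g, hg, k, hk, h2⟩
    refine ⟨g, hg, fun n => ?_⟩
    have h3 := cross_sg (r := r) hm hB3 d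
    rw [h2, cross_mul (fun n => hinv g hg n) hk, cross_sg hm hB3 c] at h3
    have h4 : n ∈ S (B c) ↔ g n ∈ S (B d) := by
      rw [← h3]
      constructor
      · intro h; exact ⟨n, h, rfl⟩
      · rintro ⟨n', h5, h6⟩
        rwa [g.injective h6] at h5
    have h5 : B d (g n) = true ↔ B c n = true := h4.symm
    exact bool_eq h5
  have h2 := (hidx G (NE r m) hG (clo_NE r m) F ∅ hFf finite_empty).2
  rw [st_empty] at h2
  exact h2 h1

end Pool.Agent.L7h65.DU
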