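import Pool.Agent.L7h71.FP.Stm2
import Pool.Agent.L7h7.FP.Asm

set_option autoImplicit false

/-!
Part THY: the theory is a complete invariant of the structures with an oligomorphic group, among all
structures on `ℕ`, for the relations with number in `I` (adapted from `Pool.Agent.L7h7.FP.Asm`).
-/

namespace Pool.Agent.L7h65.DU

open Set Filter MeasureTheory Function
open Pool.Agent.L7h71.FP
open Pool.Agent.L7h7.FP (Fm conj snoc_update)
open Pool.Agent.L7h71.COV (Str Iso)

variable {a : ℕ → ℕ}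

/-- satisfaction; only the relations with number in `I` are used -/
def Sat (I : Set ℕ) (x : Str a) : {k : ℕ} → Fm a k → (Fin k → ℕ) → Prop
  | _, .eq s t, u => u s = u t
  | _, .rel i t, u => i ∈ I ∧ x i (u ∘ t) = true
  | _, .neg φ, u => ¬ Sat I x φ u
  | _, .and φ ψ, u => Sat I x φ u ∧ Sat I x ψ u
  | k, .ex φ, u => ∃ n : ℕ, Sat I x φ (Fin.snoc (α := fun _ => ℕ) u n)

theorem sat_pres {I : Set ℕ} {x y : Str a} {σ : Equiv.Perm ℕ} (h : PresI I x y σ) {k : ℕ}
    (φ : Fm a k) (u : Fin k → ℕ) : Sat I y φ (σ ∘ u) ↔ Sat I x φ u := by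
  induction φ with
  | eq s t => simp [Sat]
  | rel i t =>
    simp only [Sat]
    refine and_congr_right fun hi => ?_
    rw [comp_assoc, h i hi]
  | neg φ ih => simp only [Sat]; rw [ih]
  | and φ ψ ih1 ih2 => simp only [Sat]; rw [ih1, ih2]
  | ex φ ih =>
    simp only [Sat]
    have hu : ∀ n : ℕ, Fin.snoc (α := fun _ => ℕ) (σ ∘ u) (σ n) =
        σ ∘ Fin.snoc (α := fun _ => ℕ) u n := by
      intro n
      exact (Fin.comp_snoc σ u n).symm
    constructor
    · rintro ⟨n, hn⟩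
      refine ⟨σ.symm n, ?_⟩
      rw [← ih, ← hu, Equiv.apply_symm_apply]
      exact hn
    · rintro ⟨n, hn⟩
      exact ⟨σ n, by rw [hu, ih]; exact hn⟩

theorem measurable_Sat (I : Set ℕ) {k : ℕ} (φ : Fm a k) (u : Fin k → ℕ) :
    Measurable fun x : Str a => Sat I x φ u := by
  induction φ with
  | eq s t => exact measurable_const
  | rel i t =>
    refine measurable_const.and ?_
    apply measurableSet_setOfPred.1
    have h1 : Measurable fun x : Str a => x i (u ∘ t) :=
      (measurable_pi_apply (u ∘ t)).comp (measurable_pi_apply i)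
    exact h1 (measurableSet_singleton true)
  | neg φ ih => exact (ih u).not
  | and φ ψ ih1 ih2 => exact (ih1 u).and (ih2 u)
  | ex φ ih => exact Measurable.exists fun n => ih _

theorem sat_conj {I : Set ℕ} {x : Str a} {k : ℕ} (l : List (Fm a (k + 1))) (u : Fin (k + 1) → ℕ) :
    Sat I x (conj l) u ↔ ∀ φ ∈ l, Sat I x φ u := by
  induction l with
  | nil => simp [conj, Sat]
  | cons φ l ih =>
    simp only [conj, Sat, List.mem_cons, forall_eq_or_imp]
    rw [ih]

/-- the tuples `u` in `x` and `v` in `y` satisfy the same formulas -/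
def Q (I : Set ℕ) (x y : Str a) (k : ℕ) (u v : Fin k → ℕ) : Prop :=
  ∀ φ : Fm a k, Sat I x φ u ↔ Sat I y φ v

theorem Q.symm {I : Set ℕ} {x y : Str a} {k : ℕ} {u v : Fin k → ℕ} (h : Q I x y k u v) :
    Q I y x k v u := fun φ => (h φ).symm

theorem rep (X : Set ℕ) : ∃ m : ℕ, X.Nonempty → m ∈ X := by
  by_cases hX : X.Nonempty
  · exact ⟨hX.some, fun _ => hX.some_mem⟩
  · exact ⟨0, fun h => absurd h hX⟩

/-- points in the same orbit of the stabiliser satisfy the same formulas -/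
theorem sat_orb {I : Set ℕ} {y : Str a} {k : ℕ} {v : Fin k → ℕ} {m m' : ℕ}
    (h : m' ∈ O (st (GrI I y) (range v)) m) (φ : Fm a (k + 1)) :
    Sat I y φ (Fin.snoc (α := fun _ => ℕ) v m') ↔ Sat I y φ (Fin.snoc (α := fun _ => ℕ) v m) := by
  obtain ⟨g, hg, hgm⟩ := h
  rw [← sat_pres (I := I) (x := y) (y := y) (σ := g) hg.1 φ (Fin.snoc (α := fun _ => ℕ) v m)]
  have h7 : ⇑g ∘ Fin.snoc (α := fun _ => ℕ) v m = Fin.snoc (α := fun _ => ℕ) v m' := by
    rw [Fin.comp_snoc, hgm]
    congr 1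
    funext j
    exact hg.2 (v j) ⟨j, rfl⟩
  rw [h7]

theorem forth {I : Set ℕ} {x y : Str a} (hy : Oli (GrI I y)) {k : ℕ} {u v : Fin k → ℕ}
    (h : Q I x y k u v) (n : ℕ) :
    ∃ m : ℕ, Q I x y (k + 1) (Fin.snoc (α := fun _ => ℕ) u n)
      (Fin.snoc (α := fun _ => ℕ) v m) := by
  classical
  by_contra hne
  push Not at hne
  have h1 : ∀ m : ℕ, ∃ φ : Fm a (k + 1), Sat I x φ (Fin.snoc (α := fun _ => ℕ) u n) ∧
      ¬ Sat I y φ (Fin.snoc (α := fun _ => ℕ) v m) := by
    intro m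
    have h2 := hne m
    unfold Q at h2
    push Not at h2
    obtain ⟨φ, h3 | h3⟩ := h2
    · exact ⟨φ, h3.1, h3.2⟩
    · exact ⟨.neg φ, h3.1, fun h4 => h4 h3.2⟩
  choose φ hφ1 hφ2 using h1
  have hfin : (range v).Finite := Set.finite_range v
  have hT := hy (range v) hfin
  obtain ⟨T, hT'⟩ := hT.exists_finset
  choose r hr using rep
  have h4 : Sat I x (.ex (conj (T.toList.map fun X => φ (r X)))) u := by
    refine ⟨n, ?_⟩
    rw [sat_conj]
    intro ψ hψ
    obtain ⟨X, -, rfl⟩ := List.mem_map.1 hψ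
    exact hφ1 _
  rw [h] at h4
  obtain ⟨m, hm⟩ := h4
  rw [sat_conj] at hm
  set X := O (st (GrI I y) (range v)) m with hX
  have hXT : X ∈ T := (hT' X).2 ⟨m, rfl⟩
  have h5 := hm (φ (r X)) (List.mem_map.2 ⟨X, Finset.mem_toList.2 hXT, rfl⟩)
  have h6 : r X ∈ X := hr X ⟨m, O_refl _ m⟩
  apply hφ2 (r X)
  rw [sat_orb h6]
  exact h5

/-- the other direction: only the first group is oligomorphic -/
theorem forth2 {I : Set ℕ} {x y : Str a} (hx : Oli (GrI I x)) {k : ℕ} {u v : Fin k → ℕ}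
    (h : Q I x y k u v) (n : ℕ) :
    ∃ m : ℕ, Q I x y (k + 1) (Fin.snoc (α := fun _ => ℕ) u n)
      (Fin.snoc (α := fun _ => ℕ) v m) := by
  classical
  have hT := hx (range u) (Set.finite_range u)
  obtain ⟨T, hT'⟩ := hT.exists_finset
  choose r hr using rep
  -- the separating formulas
  have h1 : ∀ m : ℕ, ∃ φ : Fm a (k + 1), Sat I x φ (Fin.snoc (α := fun _ => ℕ) u n) ∧
      (Sat I x φ (Fin.snoc (α := fun _ => ℕ) u m) → ∀ ψ : Fm a (k + 1),
        (Sat I x ψ (Fin.snoc (α := fun _ => ℕ) u n) ↔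
          Sat I x ψ (Fin.snoc (α := fun _ => ℕ) u m))) := by
    intro m
    by_cases hs : ∀ ψ : Fm a (k + 1), (Sat I x ψ (Fin.snoc (α := fun _ => ℕ) u n) ↔
          Sat I x ψ (Fin.snoc (α := fun _ => ℕ) u m))
    · exact ⟨.eq 0 0, rfl, fun _ => hs⟩
    · push Not at hs
      obtain ⟨ψ, h3 | h3⟩ := hs
      · exact ⟨ψ, h3.1, fun h4 => absurd h4 h3.2⟩
      · exact ⟨.neg ψ, h3.1, fun h4 => absurd h3.2 h4⟩
  choose φ hφ1 hφ2 using h1
  set ψ : Fm a (k + 1) := conj (T.toList.map fun X => φ (r X)) with hψ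
  have hψn : Sat I x ψ (Fin.snoc (α := fun _ => ℕ) u n) := by
    rw [hψ, sat_conj]
    intro χ hχ
    obtain ⟨X, -, rfl⟩ := List.mem_map.1 hχ
    exact hφ1 _
  -- the formula isolates the type
  have key : ∀ w : ℕ, Sat I x ψ (Fin.snoc (α := fun _ => ℕ) u w) → ∀ χ : Fm a (k + 1),
      Sat I x χ (Fin.snoc (α := fun _ => ℕ) u n) → Sat I x χ (Fin.snoc (α := fun _ => ℕ) u w) := by
    intro w hw χ hχ
    rw [hψ, sat_conj] at hw
    set X := O (st (GrI I x) (range u)) w with hX
    have hXT : X ∈ T := (hT' X).2 ⟨w, rfl⟩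
    have h5 := hw (φ (r X)) (List.mem_map.2 ⟨X, Finset.mem_toList.2 hXT, rfl⟩)
    have h6 : r X ∈ X := hr X ⟨w, O_refl _ w⟩
    rw [← sat_orb h6] at h5
    have h7 := (hφ2 (r X) h5 χ).1 hχ
    rwa [sat_orb h6] at h7
  have h4 : Sat I x (.ex ψ) u := ⟨n, hψn⟩
  rw [h] at h4
  obtain ⟨m, hm⟩ := h4
  have h8 : ∀ χ : Fm a (k + 1), Sat I x χ (Fin.snoc (α := fun _ => ℕ) u n) →
      Sat I y χ (Fin.snoc (α := fun _ => ℕ) v m) := by
    intro χ hχ
    have h9 : Sat I x (.neg (.ex (.and ψ (.neg χ)))) u := by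
      rintro ⟨w, hw1, hw2⟩
      exact hw2 (key w hw1 χ hχ)
    rw [h] at h9
    by_contra hno
    exact h9 ⟨m, hm, hno⟩
  refine ⟨m, fun χ => ⟨h8 χ, fun hχ => ?_⟩⟩
  by_contra hno
  exact h8 (.neg χ) hno hχ

/-- the same for sequences -/
def QQ (I : Set ℕ) (x y : Str a) (k : ℕ) (p : (ℕ → ℕ) × (ℕ → ℕ)) : Prop :=
  Q I x y k (fun j => p.1 j) (fun j => p.2 j)

theorem step {I : Set ℕ} {x y : Str a} (hx : Oli (GrI I x)) (k : ℕ)
    (p : (ℕ → ℕ) × (ℕ → ℕ)) (h : QQ I x y k p) :
    ∃ n m : ℕ, QQ I x y (k + 1) (update p.1 k n, update p.2 k m) ∧ (k % 2 = 0 → n = k / 2) ∧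
      (k % 2 = 1 → m = k / 2) := by
  rcases Nat.mod_two_eq_zero_or_one k with hk | hk
  · obtain ⟨m, hm⟩ := forth2 hx h (k / 2)
    refine ⟨k / 2, m, ?_, fun _ => rfl, fun h => by omega⟩
    unfold QQ
    simp only
    rw [snoc_update, snoc_update]
    exact hm
  · obtain ⟨n, hn⟩ := forth hx (Q.symm h) (k / 2)
    refine ⟨n, k / 2, ?_, fun h => by omega, fun _ => rfl⟩
    unfold QQ
    simp only
    rw [snoc_update, snoc_update]
    exact Q.symm hn

/-- structures with the same theory, one of them with an oligomorphic group, are isomorphic -/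
theorem iso_of_theory {I : Set ℕ} {x y : Str a} (hx : Oli (GrI I x))
    (h : ∀ φ : Fm a 0, Sat I x φ Fin.elim0 ↔ Sat I y φ Fin.elim0) :
    ∃ σ : Equiv.Perm ℕ, PresI I x y σ := by
  classical
  choose N M h1 h2 h3 using step (y := y) hx
  let S : (k : ℕ) → {p : (ℕ → ℕ) × (ℕ → ℕ) // QQ I x y k p} := fun k =>
    Nat.rec (motive := fun k => {p : (ℕ → ℕ) × (ℕ → ℕ) // QQ I x y k p})
      ⟨(fun _ => 0, fun _ => 0), by
        intro φ
        have e1 : (fun j : Fin 0 => (fun _ => 0 : ℕ → ℕ) j) = Fin.elim0 := Subsingleton.elim _ _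
        simp only
        rw [e1]
        exact h φ⟩
      (fun k p => ⟨(update p.1.1 k (N k p.1 p.2), update p.1.2 k (M k p.1 p.2)),
        h1 k p.1 p.2⟩) k
  have hS : ∀ k, (S (k + 1)).1 = (update (S k).1.1 k (N k (S k).1 (S k).2),
      update (S k).1.2 k (M k (S k).1 (S k).2)) := fun k => rfl
  let U : ℕ → ℕ := fun j => (S (j + 1)).1.1 j
  let V : ℕ → ℕ := fun j => (S (j + 1)).1.2 j
  have hag : ∀ k j, j < k → (S k).1.1 j = U j ∧ (S k).1.2 j = V j := by
    intro k
    induction k with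
    | zero => intro j hj; exact absurd hj (Nat.not_lt_zero _)
    | succ k ih =>
      intro j hj
      rcases Nat.lt_succ_iff_lt_or_eq.1 hj with h4 | h4
      · rw [hS]
        simp only
        rw [update_of_ne h4.ne, update_of_ne h4.ne]
        exact ih j h4
      · subst h4
        exact ⟨rfl, rfl⟩
  have hQ : ∀ k, Q I x y k (fun j => U j) (fun j => V j) := by
    intro k
    have h4 := (S k).2
    unfold QQ at h4
    have e1 : (fun j : Fin k => (S k).1.1 j) = fun j : Fin k => U j := by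
      funext j
      exact (hag k j j.2).1
    have e2 : (fun j : Fin k => (S k).1.2 j) = fun j : Fin k => V j := by
      funext j
      exact (hag k j j.2).2
    rw [e1, e2] at h4
    exact h4
  have hU : ∀ n, U (2 * n) = n := by
    intro n
    show (S (2 * n + 1)).1.1 (2 * n) = n
    rw [hS]
    simp only
    rw [update_self, h2 (2 * n) _ _ (by omega)]
    omega
  have hV : ∀ n, V (2 * n + 1) = n := by
    intro n
    show (S (2 * n + 1 + 1)).1.2 (2 * n + 1) = n
    rw [hS]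
    simp only
    rw [update_self, h3 (2 * n + 1) _ _ (by omega)]
    omega
  have heq : ∀ i j, U i = U j ↔ V i = V j := by
    intro i j
    have h4 := hQ (max i j + 1) (.eq ⟨i, by omega⟩ ⟨j, by omega⟩)
    exact h4
  refine ⟨⟨fun p => V (2 * p), fun q => U (2 * q + 1), ?_, ?_⟩, ?_⟩
  · intro p
    show U (2 * V (2 * p) + 1) = p
    have h4 : V (2 * V (2 * p) + 1) = V (2 * p) := hV _
    rw [← heq] at h4
    rw [h4, hU]
  · intro q
    show V (2 * U (2 * q + 1)) = q
    have h4 : U (2 * U (2 * q + 1)) = U (2 * q + 1) := hU _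
    rw [heq] at h4
    rw [h4, hV]
  · intro i hi w
    have h4 := hQ ((Finset.univ.sup fun l => 2 * w l) + 1)
      (.rel i fun l => ⟨2 * w l, Nat.lt_succ_of_le (Finset.le_sup (f := fun l => 2 * w l)
        (Finset.mem_univ l))⟩)
    simp only [Sat] at h4
    have h5 := (and_congr_right_iff.1 h4) hi
    have e1 : ((fun j : Fin ((Finset.univ.sup fun l => 2 * w l) + 1) => U j) ∘
        fun l => ⟨2 * w l, Nat.lt_succ_of_le (Finset.le_sup (f := fun l => 2 * w l)
        (Finset.mem_univ l))⟩) = w := by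
      funext l
      exact hU _
    rw [e1] at h5
    show y i (fun l => V (2 * w l)) = x i w
    rw [Bool.eq_iff_iff]
    exact h5.symm

theorem s_thy : S_THY := by
  classical
  intro a I
  have hne : Nonempty (Fm a 0) := ⟨.ex (.eq 0 0)⟩
  obtain ⟨e, he⟩ := exists_surjective_nat (Fm a 0)
  let J : Str a → ℕ → Bool := fun x n => decide (Sat I x (e n) Fin.elim0)
  have hJ : ∀ x y, J x = J y ↔ ∀ φ : Fm a 0, Sat I x φ Fin.elim0 ↔ Sat I y φ Fin.elim0 := by
    intro x y
    constructor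
    · intro h φ
      obtain ⟨n, rfl⟩ := he φ
      have h1 : decide (Sat I x (e n) Fin.elim0) = decide (Sat I y (e n) Fin.elim0) :=
        congrFun h n
      simpa only [decide_eq_decide] using h1
    · intro h
      funext n
      show decide _ = decide _
      simp only [decide_eq_decide]
      exact h (e n)
  refine ⟨J, ?_, ?_, ?_⟩
  · rw [measurable_pi_iff]
    intro n
    apply measurable_to_bool
    have e1 : (fun y : Str a => J y n) ⁻¹' {true} = {y | Sat I y (e n) Fin.elim0} := by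
      ext c
      exact decide_eq_true_iff
    rw [e1]
    apply measurableSet_setOfPred.2
    exact measurable_Sat I (e n) _
  · intro x y σ h
    rw [hJ]
    intro φ
    have h2 := sat_pres h φ Fin.elim0
    have h3 : (⇑σ ∘ Fin.elim0 : Fin 0 → ℕ) = Fin.elim0 := Subsingleton.elim _ _
    rw [h3] at h2
    exact h2.symm
  · intro x y hx h
    exact iso_of_theory hx ((hJ x y).1 h)

end Pool.Agent.L7h65.DU
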